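import Pool.Agent.N329.SD.Stm

/-!
Project SD (helper329), part REL: the two rational relations (helper99).
-/

set_option autoImplicit false

namespace Pool.Agent.N99.SD

open Pool.Agent.N329.SD

/-- a series in base 8 with a first nonzero digit is not zero -/
theorem ne_zero_of_first (f : ℕ → ℝ) (n : ℕ) (h0 : ∀ i < n, f i = 0)
    (hn : 1 / 8 ^ (n + 1) ≤ |f n|) (hb : ∀ i, |f i| ≤ 3 / 8 ^ (i + 1)) : ∑' i, f i ≠ 0 := by
  have hgeo : HasSum (fun i : ℕ => ((1 : ℝ) / 8) ^ i) (1 - 1 / 8)⁻¹ :=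
    hasSum_geometric_of_lt_one (by norm_num) (by norm_num)
  have hs3 : Summable fun i : ℕ => (3 : ℝ) / 8 ^ (i + 1) := by
    refine (hgeo.summable.mul_left (3 / 8)).congr fun i => ?_
    rw [one_div, inv_pow, pow_succ]
    field_simp
  have hs : Summable f := Summable.of_norm_bounded hs3 fun i => hb i
  have hsplit := hs.sum_add_tsum_nat_add (n + 1)
  have hfin : ∑ i ∈ Finset.range (n + 1), f i = f n := by
    rw [Finset.sum_range_succ, Finset.sum_eq_zero, zero_add]
    intro i hi
    exact h0 i (Finset.mem_range.1 hi)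
  have htail : ‖∑' i, f (i + (n + 1))‖ ≤ 3 / 8 ^ (n + 2) * (1 - 1 / 8)⁻¹ := by
    refine tsum_of_norm_bounded (hgeo.mul_left (3 / 8 ^ (n + 2))) fun i => ?_
    refine (hb _).trans (le_of_eq ?_)
    rw [one_div, inv_pow]
    have e : i + (n + 1) + 1 = (n + 2) + i := by ring
    rw [e, pow_add]
    field_simp
  intro hcon
  rw [← hsplit, hfin] at hcon
  have h1 : f n = -∑' i, f (i + (n + 1)) := by linarith
  have h2 : |f n| ≤ 3 / 8 ^ (n + 2) * (1 - 1 / 8)⁻¹ := by
    rw [h1, abs_neg]
    exact htail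
  have h3 := hn.trans h2
  have h4 : (0 : ℝ) < 8 ^ (n + 1) := by positivity
  have e2 : (3 : ℝ) / 8 ^ (n + 2) * (1 - 1 / 8)⁻¹ = 3 / 7 * (1 / 8 ^ (n + 1)) := by
    rw [pow_succ _ (n + 1)]
    field_simp
    norm_num
  rw [e2] at h3
  have h5 : (0 : ℝ) < 1 / 8 ^ (n + 1) := by positivity
  linarith

/-- the terms -/
noncomputable def tm (x y : ℕ → ℕ) (i : ℕ) : ℝ := ((2 * (x i % 2) + y i % 2 : ℕ) : ℝ) / 8 ^ (i + 1)

theorem rr_eq (x y : ℕ → ℕ) : rr x y = ∑' i, tm x y i := rfl

theorem tm_bd (x y : ℕ → ℕ) (i : ℕ) : |tm x y i| ≤ 3 / 8 ^ (i + 1) := by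
  unfold tm
  rw [abs_of_nonneg (by positivity)]
  apply div_le_div_of_nonneg_right _ (by positivity)
  have h1 : x i % 2 < 2 := Nat.mod_lt _ (by norm_num)
  have h2 : y i % 2 < 2 := Nat.mod_lt _ (by norm_num)
  have h3 : 2 * (x i % 2) + y i % 2 ≤ 3 := by omega
  exact_mod_cast h3

theorem tm_summable (x y : ℕ → ℕ) : Summable (tm x y) := by
  have hgeo : Summable (fun i : ℕ => ((1 : ℝ) / 8) ^ i) :=
    summable_geometric_of_lt_one (by norm_num) (by norm_num)
  have hs3 : Summable fun i : ℕ => (3 : ℝ) / 8 ^ (i + 1) := by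
    refine (hgeo.mul_left (3 / 8)).congr fun i => ?_
    rw [one_div, inv_pow, pow_succ]
    field_simp
  exact Summable.of_norm_bounded hs3 fun i => tm_bd x y i

theorem rr_inj {x y x' y' : ℕ → ℕ} (h : rr x y = rr x' y') (i : ℕ) :
    x i % 2 = x' i % 2 ∧ y i % 2 = y' i % 2 := by
  classical
  by_contra hcon
  have hex : ∃ n, 2 * (x n % 2) + y n % 2 ≠ 2 * (x' n % 2) + y' n % 2 := by
    refine ⟨i, fun h1 => hcon ?_⟩
    have h2 : x i % 2 < 2 := Nat.mod_lt _ (by norm_num)
    have h3 : y i % 2 < 2 := Nat.mod_lt _ (by norm_num)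
    have h4 : x' i % 2 < 2 := Nat.mod_lt _ (by norm_num)
    have h5 : y' i % 2 < 2 := Nat.mod_lt _ (by norm_num)
    constructor <;> omega
  set n := Nat.find hex with hn
  have hn1 := Nat.find_spec hex
  have hn2 : ∀ k < n, 2 * (x k % 2) + y k % 2 = 2 * (x' k % 2) + y' k % 2 := by
    intro k hk
    by_contra h1
    exact Nat.find_min hex hk h1
  have hsub : ∑' k, (tm x y k - tm x' y' k) = 0 := by
    rw [(tm_summable x y).tsum_sub (tm_summable x' y'), ← rr_eq, ← rr_eq, h, sub_self]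
  refine ne_zero_of_first _ n ?_ ?_ ?_ hsub
  · intro k hk
    unfold tm
    rw [hn2 k hk, sub_self]
  · unfold tm
    rw [← sub_div, abs_div, abs_of_pos (by positivity : (0 : ℝ) < 8 ^ (n + 1))]
    apply div_le_div_of_nonneg_right _ (by positivity)
    have h1 : ((2 * (x n % 2) + y n % 2 : ℕ) : ℤ) - ((2 * (x' n % 2) + y' n % 2 : ℕ) : ℤ) ≠ 0 := by
      intro h2
      apply hn1
      have : ((2 * (x n % 2) + y n % 2 : ℕ) : ℤ) = ((2 * (x' n % 2) + y' n % 2 : ℕ) : ℤ) := by
        linarith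
      exact_mod_cast this
    have h2 := Int.one_le_abs h1
    have h3 : ((1 : ℤ) : ℝ) ≤ ((|((2 * (x n % 2) + y n % 2 : ℕ) : ℤ) -
        ((2 * (x' n % 2) + y' n % 2 : ℕ) : ℤ)| : ℤ) : ℝ) := by exact_mod_cast h2
    rw [Int.cast_abs, Int.cast_sub, Int.cast_one, Int.cast_natCast, Int.cast_natCast] at h3
    exact h3
  · intro k
    unfold tm
    rw [← sub_div, abs_div, abs_of_pos (by positivity : (0 : ℝ) < 8 ^ (k + 1))]
    apply div_le_div_of_nonneg_right _ (by positivity)
    have h2 : x k % 2 < 2 := Nat.mod_lt _ (by norm_num)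
    have h3 : y k % 2 < 2 := Nat.mod_lt _ (by norm_num)
    have h4 : x' k % 2 < 2 := Nat.mod_lt _ (by norm_num)
    have h5 : y' k % 2 < 2 := Nat.mod_lt _ (by norm_num)
    have h6 : 2 * (x k % 2) + y k % 2 ≤ 3 := by omega
    have h7 : 2 * (x' k % 2) + y' k % 2 ≤ 3 := by omega
    have h8 : ((2 * (x k % 2) + y k % 2 : ℕ) : ℝ) ≤ 3 := by exact_mod_cast h6
    have h9 : ((2 * (x' k % 2) + y' k % 2 : ℕ) : ℝ) ≤ 3 := by exact_mod_cast h7
    have h10 : (0 : ℝ) ≤ ((2 * (x k % 2) + y k % 2 : ℕ) : ℝ) := Nat.cast_nonneg _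
    have h11 : (0 : ℝ) ≤ ((2 * (x' k % 2) + y' k % 2 : ℕ) : ℝ) := Nat.cast_nonneg _
    rw [abs_le]
    constructor <;> linarith

/-- four different elements of an independent set -/
theorem four {A : Set ℝ} (hA : LinearIndependent ℚ (Subtype.val : A → ℝ)) {r1 r2 r3 r4 : ℝ}
    (h1 : r1 ∈ A) (h2 : r2 ∈ A) (h3 : r3 ∈ A) (h4 : r4 ∈ A) (h12 : r1 ≠ r2) (h13 : r1 ≠ r3)
    (h14 : r1 ≠ r4) (h23 : r2 ≠ r3) (h24 : r2 ≠ r4) (h34 : r3 ≠ r4)
    (h : r1 - r2 - r3 + r4 = 0) : False := by
  set v : Fin 4 → A := ![⟨r1, h1⟩, ⟨r2, h2⟩, ⟨r3, h3⟩, ⟨r4, h4⟩] with hv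
  have hinj : Function.Injective v := by
    intro a b hab
    have hab' : ((v a : A) : ℝ) = ((v b : A) : ℝ) := congrArg Subtype.val hab
    fin_cases a <;> fin_cases b <;> simp [hv] at hab' ⊢ <;>
      first
        | exact absurd hab' h12 | exact absurd hab' h13 | exact absurd hab' h14
        | exact absurd hab' h23 | exact absurd hab' h24 | exact absurd hab' h34
        | exact absurd hab'.symm h12 | exact absurd hab'.symm h13 | exact absurd hab'.symm h14
        | exact absurd hab'.symm h23 | exact absurd hab'.symm h24 | exact absurd hab'.symm h34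
  have hli := hA.comp v hinj
  rw [Fintype.linearIndependent_iff] at hli
  have h5 := hli ![1, -1, -1, 1] (by
    rw [Fin.sum_univ_four]
    simp [hv]
    linarith) 0
  simp at h5

theorem rel_sum {x1 y1 x2 y2 x3 y3 x4 y4 : ℕ → ℕ}
    (h : ∀ i, (2 * (x1 i % 2) + y1 i % 2) + (2 * (x4 i % 2) + y4 i % 2) =
      (2 * (x2 i % 2) + y2 i % 2) + (2 * (x3 i % 2) + y3 i % 2)) :
    rr x1 y1 - rr x2 y2 - rr x3 y3 + rr x4 y4 = 0 := by
  have h1 : rr x1 y1 + rr x4 y4 = rr x2 y2 + rr x3 y3 := by
    rw [rr_eq, rr_eq, rr_eq, rr_eq, ← (tm_summable x1 y1).tsum_add (tm_summable x4 y4),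
      ← (tm_summable x2 y2).tsum_add (tm_summable x3 y3)]
    refine tsum_congr fun i => ?_
    unfold tm
    rw [← add_div, ← add_div, ← Nat.cast_add, ← Nat.cast_add, h i]
  linarith

theorem rel : S_REL := by
  constructor
  · intro A hA x x' y y' h1 h2 h3 h4 ⟨i, hi⟩ ⟨j, hj⟩
    refine four hA h1 h2 h3 h4 ?_ ?_ ?_ ?_ ?_ ?_ (rel_sum fun k => ?_)
    · exact fun h => hj (rr_inj h j).2
    · exact fun h => hi (rr_inj h i).1
    · exact fun h => hi (rr_inj h i).1
    · exact fun h => hi (rr_inj h i).1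
    · exact fun h => hi (rr_inj h i).1
    · exact fun h => hj (rr_inj h j).2
    · ring
  · intro A hA x i j hij h1 h2 h3 h4
    have e1 : ∀ a : ℕ, a % 2 ≠ (a + 1) % 2 := fun a => by omega
    refine four hA h1 h2 h3 h4 ?_ ?_ ?_ ?_ ?_ ?_ (rel_sum fun k => ?_)
    · intro h
      have := (rr_inj h i).1
      rw [Function.update_self] at this
      exact e1 _ this
    · intro h
      have := (rr_inj h j).1
      rw [Function.update_self] at this
      exact e1 _ this
    · intro h
      have := (rr_inj h i).1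
      rw [Function.update_of_ne hij, Function.update_self] at this
      exact e1 _ this
    · intro h
      have := (rr_inj h i).1
      rw [Function.update_self, Function.update_of_ne hij] at this
      exact e1 _ this.symm
    · intro h
      have := (rr_inj h j).1
      rw [Function.update_of_ne hij.symm, Function.update_self] at this
      exact e1 _ this
    · intro h
      have := (rr_inj h i).1
      rw [Function.update_of_ne hij, Function.update_of_ne hij, Function.update_self] at this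
      exact e1 _ this
    · by_cases hk : k = i
      · subst hk
        rw [Function.update_self, Function.update_of_ne hij, Function.update_of_ne hij,
          Function.update_self]
        ring
      · by_cases hk2 : k = j
        · subst hk2
          rw [Function.update_self, Function.update_self, Function.update_of_ne hk]
        · rw [Function.update_of_ne hk, Function.update_of_ne hk2, Function.update_of_ne hk2,
            Function.update_of_ne hk]

end Pool.Agent.N99.SD
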